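import Pool.Agent.W545.QI.Stms

/-! Integration by parts and Fourier uniqueness on the torus (QI-FU of helper545). -/

set_option autoImplicit false
open scoped ContDiff ComplexConjugate Real
open MeasureTheory

namespace Pool.Agent.W688.QI

open Pool.Agent.W545.QI

lemma fub (F : ℝ × ℝ → ℂ) (hF : Continuous F) :
    ∫ s in (0:ℝ)..(2 * π), ∫ t in (0:ℝ)..(2 * π), F (s, t) =
      ∫ t in (0:ℝ)..(2 * π), ∫ s in (0:ℝ)..(2 * π), F (s, t) := by
  have hπ := Real.two_pi_pos
  rw [intervalIntegral_intervalIntegral_swap]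
  have h1 : IntegrableOn (Function.uncurry fun s t => F (s, t))
      (Set.Icc 0 (2 * π) ×ˢ Set.Icc 0 (2 * π)) := by
    apply ContinuousOn.integrableOn_compact (isCompact_Icc.prod isCompact_Icc)
    exact hF.continuousOn
  rw [Set.uIoc_of_le hπ.le]
  exact h1.mono_set (Set.prod_mono Set.Ioc_subset_Icc_self Set.Ioc_subset_Icc_self)

theorem t1 : S_IBP := by
  intro F hF
  have hd : Differentiable ℝ F := hF.1.differentiable (by simp)
  have hc := hF.1.continuous_fderiv (by simp)
  have hc1 : Continuous (D1 F) := by unfold D1; exact hc.clm_apply continuous_const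
  have hc2 : Continuous (D2 F) := by unfold D2; exact hc.clm_apply continuous_const
  have hd1 : ∀ s t : ℝ, HasDerivAt (fun s => F (s, t)) (D1 F (s, t)) s := by
    intro s t
    have h1 : HasDerivAt (fun s : ℝ => ((s, t) : ℝ × ℝ)) (1, 0) s :=
      (hasDerivAt_id s).prodMk (hasDerivAt_const s t)
    exact (hd (s, t)).hasFDerivAt.comp_hasDerivAt s h1
  have hd2 : ∀ s t : ℝ, HasDerivAt (fun t => F (s, t)) (D2 F (s, t)) t := by
    intro s t
    have h1 : HasDerivAt (fun t : ℝ => ((s, t) : ℝ × ℝ)) (0, 1) t :=
      (hasDerivAt_const t s).prodMk (hasDerivAt_id t)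
    exact (hd (s, t)).hasFDerivAt.comp_hasDerivAt t h1
  constructor
  · unfold TI
    rw [fub _ hc1]
    have : ∀ t : ℝ, ∫ s in (0:ℝ)..(2 * π), D1 F (s, t) = 0 := by
      intro t
      rw [intervalIntegral.integral_eq_sub_of_hasDerivAt (fun s _ => hd1 s t)
        ((hc1.comp (by fun_prop : Continuous fun s : ℝ => (s, t))).intervalIntegrable _ _)]
      have h1 := hF.2 (0, t) (1, 0)
      simp only [Int.cast_one, Int.cast_zero, mul_one, mul_zero, zero_add, add_zero] at h1
      rw [h1, sub_self]
    simp_rw [this]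
    simp
  · unfold TI
    have : ∀ s : ℝ, ∫ t in (0:ℝ)..(2 * π), D2 F (s, t) = 0 := by
      intro s
      rw [intervalIntegral.integral_eq_sub_of_hasDerivAt (fun t _ => hd2 s t)
        ((hc2.comp (by fun_prop : Continuous fun t : ℝ => (s, t))).intervalIntegrable _ _)]
      have h1 := hF.2 (s, 0) (0, 1)
      simp only [Int.cast_one, Int.cast_zero, mul_one, mul_zero, zero_add, add_zero] at h1
      rw [h1, sub_self]
    simp_rw [this]
    simp

lemma uniq1 (g : ℝ → ℂ) (hc : Continuous g) (hp : ∀ t, g (t + 2 * π) = g t)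
    (h : ∀ n : ℤ, ∫ t in (0:ℝ)..(2 * π), g t * Complex.exp (Complex.I * (n * t)) = 0) :
    ∀ t, g t = 0 := by
  have hF : Fact (0 < 2 * π) := ⟨Real.two_pi_pos⟩
  have hper : Function.Periodic g (2 * π) := hp
  let f : C(AddCircle (2 * π), ℂ) := ⟨hper.lift, continuous_coinduced_dom.2 hc⟩
  have hft : ∀ t : ℝ, f (t : AddCircle (2 * π)) = g t := fun t => rfl
  have hcoef : ∀ n, fourierCoeff f n = 0 := by
    intro n
    rw [fourierCoeff_eq_intervalIntegral _ n 0, zero_add]
    have e : ∫ x in (0:ℝ)..(2 * π), fourier (-n) (x : AddCircle (2 * π)) • f x =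
        ∫ t in (0:ℝ)..(2 * π), g t * Complex.exp (Complex.I * ((-n : ℤ) * t)) := by
      congr 1
      funext t
      rw [hft, fourier_coe_apply, smul_eq_mul, mul_comm]
      congr 2
      have : (π : ℂ) ≠ 0 := by exact_mod_cast Real.pi_ne_zero
      push_cast
      field_simp
    rw [e, h, smul_zero]
  intro t
  have hs := has_pointwise_sum_fourier_series_of_summable (f := f) (by
    have : fourierCoeff f = fun _ => 0 := funext hcoef
    rw [this]; exact summable_zero) (t : AddCircle (2 * π))
  simp_rw [hcoef, zero_smul] at hs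
  exact hs.unique hasSum_zero

theorem t2 : S_FU := by
  intro F hc hP h
  have p1 : ∀ s t : ℝ, F (s + 2 * π, t) = F (s, t) := by
    intro s t
    have h1 := hP (s, t) (1, 0)
    simpa using h1
  have p2 : ∀ s t : ℝ, F (s, t + 2 * π) = F (s, t) := by
    intro s t
    have h1 := hP (s, t) (0, 1)
    simpa using h1
  have key : ∀ (n : ℤ) (t : ℝ),
      ∫ s in (0:ℝ)..(2 * π), F (s, t) * Complex.exp (Complex.I * (n * s)) = 0 := by
    intro n
    apply uniq1
    · apply intervalIntegral.continuous_parametric_intervalIntegral_of_continuous'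
      unfold Function.uncurry
      fun_prop
    · intro t
      simp_rw [p2]
    · intro k
      have h1 := h (n, k)
      have hcc : Continuous fun x : ℝ × ℝ => F x * ex (n, k) x := by unfold ex; fun_prop
      have h2 := fub (fun x => F x * ex (n, k) x) hcc
      unfold TI at h1
      rw [h1] at h2
      rw [h2]
      congr 1
      funext t
      rw [← intervalIntegral.integral_mul_const]
      congr 1
      funext s
      unfold ex
      simp only
      rw [mul_assoc, ← Complex.exp_add]
      congr 2
      ring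
  rintro ⟨s, t⟩
  exact uniq1 (fun s => F (s, t)) (by fun_prop) (fun s => p1 s t) (fun n => key n t) s

end Pool.Agent.W688.QI
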